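import Pool.Agent.Lib.MP_4662c0_co.Disc

set_option autoImplicit false

namespace Pool.Agent.Results.MP_4662c0_co.Discrete

open Pool.Agent.Lib.MP_4662c0_co Real

theorem result (k : ℕ) (hk : 0 < k) (he : Even k) (w : ℝ) (hw : w = 1 / (k * sin (π / k))) :
    ∃ K : Set ℂ, Convex ℝ K ∧ IsCompact K ∧
      MeasureTheory.volume K = ENNReal.ofReal ((w - w ^ 2) / √3) ∧
      (k = 4 → MeasureTheory.volume K < ENNReal.ofReal (cos (π / 12) ^ 2 / (4 * √3))) ∧
      ∀ γ : ℝ → ℂ, ContinuousOn γ (Set.Icc 0 1) → γ 0 = γ 1 → eVariationOn γ (Set.Icc 0 1) = 1 →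
        ∃ a b : ℂ, a ^ k = 1 ∧ ∀ t ∈ Set.Icc (0 : ℝ) 1, a * γ t + b ∈ K := by
  obtain ⟨m, rfl⟩ := he
  have hm : 1 ≤ m := by omega
  have hm0 : (1 : ℝ) ≤ m := by exact_mod_cast hm
  have e : ((m + m : ℕ) : ℝ) = 2 * m := by push_cast; ring
  rw [e] at hw
  have hs : 1 ≤ m * sin (π / (2 * m)) := by
    have h1 : 2 / π * (π / (2 * m)) ≤ sin (π / (2 * m)) := by
      refine mul_le_sin (by positivity) ?_
      exact div_le_div_of_nonneg_left pi_pos.le two_pos (by linarith)
    have h2 : (m : ℝ) * (2 / π * (π / (2 * m))) = 1 := by field_simp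
    nlinarith
  have hv : MeasureTheory.volume (trap w) = ENNReal.ofReal ((w - w ^ 2) / √3) := by
    refine volume_trap ?_ ?_
    · rw [hw]; exact one_div_nonneg.2 (by linarith)
    · rw [hw]; exact one_div_le_one_div_of_le two_pos (by linarith)
  refine ⟨trap w, convex_trap w, isCompact_trap w, hv, fun h4 => ?_, fun γ h1 h2 h3 => ?_⟩
  · obtain rfl : m = 2 := by omega
    have e4 : π / (2 * ((2 : ℕ) : ℝ)) = π / 4 := by norm_num
    have e6 : 2 * (π / 12) = π / 6 := by ring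
    have h2 : (√2 : ℝ) * √2 = 2 := Real.mul_self_sqrt (by norm_num)
    have h2' : (√2 : ℝ) < 1.415 := (Real.sqrt_lt' (by norm_num)).2 (by norm_num)
    have h3' : (1.732 : ℝ) < √3 := (Real.lt_sqrt (by norm_num)).2 (by norm_num)
    have hw' : w = √2 / 4 := by
      rw [hw, e4, sin_pi_div_four, div_eq_iff (by positivity)]
      push_cast
      linarith
    have hc : cos (π / 12) ^ 2 = 1 / 2 + √3 / 4 := by
      rw [cos_sq, e6, cos_pi_div_six]; ring
    rw [hv, ENNReal.ofReal_lt_ofReal_iff (by rw [hc]; positivity), hc, hw',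
      div_lt_div_iff₀ (by positivity) (by positivity)]
    nlinarith
  · rw [hw, ← two_mul]
    exact Worm.fits_disc ⟨h1, h2, h3.le⟩ m hm

end Pool.Agent.Results.MP_4662c0_co.Discrete
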