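import Pool.Agent.Lib.MP_4662c0_co.LMain

set_option autoImplicit false

namespace Pool.Agent.Results.MP_4662c0_co.Lower

theorem result : ∀ K : Set ℂ, Convex ℝ K →
    (∀ γ : ℝ → ℂ, ContinuousOn γ (Set.Icc 0 1) → γ 0 = γ 1 → eVariationOn γ (Set.Icc 0 1) = 1 →
      ∃ a b : ℂ, ‖a‖ = 1 ∧ ((∀ t ∈ Set.Icc (0 : ℝ) 1, a * γ t + b ∈ K) ∨
        ∀ t ∈ Set.Icc (0 : ℝ) 1, a * (starRingEnd ℂ) (γ t) + b ∈ K)) →
    ENNReal.ofReal 0.1017 ≤ MeasureTheory.volume K :=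
  fun _ hK hc => Pool.Agent.Lib.MP_4662c0_co.Low.lower hK hc

end Pool.Agent.Results.MP_4662c0_co.Lower
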