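import Pool.Agent.Lib.MP_4662c0_co.A.Main

set_option autoImplicit false

namespace Pool.Agent.Results.MP_4662c0_co.Rot

open Pool.Agent.Lib.MP_4662c0_co

theorem result : ∃ K : Set ℂ, Convex ℝ K ∧ MeasurableSet K ∧
    MeasureTheory.volume K ≤ ENNReal.ofReal 0.108 ∧
    ∀ γ : ℝ → ℂ, ContinuousOn γ (Set.Icc 0 1) → γ 0 = γ 1 → eVariationOn γ (Set.Icc 0 1) = 1 →
      ∃ a b : ℂ, ‖a‖ = 1 ∧ ∀ t ∈ Set.Icc (0 : ℝ) 1, a * γ t + b ∈ K := by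
  refine ⟨poly A.sides, convex_poly _, measurableSet_poly _, A.area, fun γ h1 h2 h3 => ?_⟩
  obtain ⟨a, b, ha, h⟩ := A.fits ⟨h1, h2, h3.le⟩
  exact ⟨a, b, ha, h.resolve_right (by simp)⟩

end Pool.Agent.Results.MP_4662c0_co.Rot
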